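import Pool.Agent.H51.EMD.Gadget

/-!
# Product sums and planar Earth-Mover Distance: the lower bound for deterministic costs
-/

set_option autoImplicit false

namespace Pool.Agent.H51.EMD

open Finset

/-- the sum with both colourings -/
noncomputable def both (Δ : ℕ) (g : Finset ℤ × Finset ℤ → ℕ → ℕ → ℝ) (a b : ℕ) (v : ℤ × ℤ) : ℝ :=
  cellSum Δ g (red a b v) (blu a b v) + cellSum Δ g (blu a b v) (red a b v)

theorem both_eq {Δ : ℕ} {g : Finset ℤ × Finset ℤ → ℕ → ℕ → ℝ} {a b : ℕ} (ha : 1 ≤ a)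
    (hz : ∀ Q ∈ cells Δ, ∀ R : Finset (ℤ × ℤ), R ⊆ grid Δ → R.card ≤ 2 →
      g Q (R ∩ Q.1 ×ˢ Q.2).card (R ∩ Q.1 ×ˢ Q.2).card = 0) {v : ℤ × ℤ}
    (h1 : v.1 ∈ J Δ a) (h2 : v.2 ∈ J Δ b) :
    both Δ g a b v = ∑ Q ∈ cells Δ, D a Q.1 v.1 * D b Q.2 v.2 * (g Q 1 0 + g Q 0 1) := by
  unfold both cellSum
  rw [← sum_add_distrib]
  apply sum_congr rfl
  intro Q hQ
  exact term ha v (hz Q hQ _ (red_sub h1 h2) (card_red ha v).le)

theorem both_box {Δ : ℕ} {g : Finset ℤ × Finset ℤ → ℕ → ℕ → ℝ} {a b : ℕ} (ha : 1 ≤ a)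
    (hz : ∀ Q ∈ cells Δ, ∀ R : Finset (ℤ × ℤ), R ⊆ grid Δ → R.card ≤ 2 →
      g Q (R ∩ Q.1 ×ˢ Q.2).card (R ∩ Q.1 ×ˢ Q.2).card = 0) (A B : Finset ℤ)
    (hA : A ⊆ J Δ a) (hB : B ⊆ J Δ b) :
    ∑ v ∈ A ×ˢ B, both Δ g a b v = ∑ Q ∈ cells Δ,
      ((∑ i ∈ A, D a Q.1 i) * (∑ j ∈ B, D b Q.2 j)) * (g Q 1 0 + g Q 0 1) := by
  have h1 : ∀ v ∈ A ×ˢ B, both Δ g a b v =
      ∑ Q ∈ cells Δ, D a Q.1 v.1 * D b Q.2 v.2 * (g Q 1 0 + g Q 0 1) := by
    intro v hv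
    rw [mem_product] at hv
    exact both_eq ha hz (hA hv.1) (hB hv.2)
  rw [sum_congr rfl h1, sum_comm]
  apply sum_congr rfl
  intro Q _
  rw [← sum_mul, sum_mul_sum, sum_product]

theorem I_sub {Δ T t : ℕ} (ht : t ∈ Icc 1 T) : I Δ T ⊆ J Δ t := by
  intro i hi
  rw [mem_Icc] at ht
  unfold I at hi
  unfold J
  rw [mem_Ioc] at hi
  rw [mem_Icc]
  omega

/-- one product set: squares against thin gadgets -/
theorem dom_cell {Δ T : ℕ} (hT : 1 ≤ T) (X Y : Finset ℤ) :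
    ∑ t ∈ Icc 1 T, w t * (inner Δ T X t * inner Δ T Y t) ≤
      3 / (2 * (T : ℝ)) * ∑ b ∈ Icc 1 T, (full Δ X 1 * full Δ Y b + full Δ X b * full Δ Y 1) := by
  have hT0 : (0 : ℝ) < T := by exact_mod_cast hT
  have hs : ∀ Z : Finset ℤ, 0 ≤ 3 / (T : ℝ) * ∑ b ∈ Icc 1 T, full Δ Z b := fun Z =>
    mul_nonneg (by positivity) (sum_nonneg fun b _ => full_nonneg Δ Z b)
  have hm : ∀ Z : Finset ℤ, ∀ t ∈ Icc 1 T,
      inner Δ T Z t ≤ 3 / (T : ℝ) * ∑ b ∈ Icc 1 T, full Δ Z b := by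
    intro Z t ht
    have h := inner_le_avg (Δ := Δ) Z (mem_Icc.mp ht).2
    rw [div_mul_eq_mul_div, le_div_iff₀ hT0]
    linarith
  refine (prod_dom (inner Δ T X) (inner Δ T Y) (full_nonneg Δ X 1) (full_nonneg Δ Y 1) (hs X)
    (hs Y) (fun t _ => inner_nonneg Δ T X t) (fun t _ => inner_nonneg Δ T Y t)
    (fun t ht => inner_le_one X (mem_Icc.mp ht).2) (fun t ht => inner_le_one Y (mem_Icc.mp ht).2)
    (hm X) (hm Y)).trans (le_of_eq ?_)
  rw [sum_add_distrib, ← mul_sum, ← sum_mul]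
  field_simp
  ring

theorem dom {Δ T : ℕ} (hT : 1 ≤ T) {g : Finset ℤ × Finset ℤ → ℕ → ℕ → ℝ}
    (hg : ∀ Q r b, 0 ≤ g Q r b)
    (hz : ∀ Q ∈ cells Δ, ∀ R : Finset (ℤ × ℤ), R ⊆ grid Δ → R.card ≤ 2 →
      g Q (R ∩ Q.1 ×ˢ Q.2).card (R ∩ Q.1 ×ˢ Q.2).card = 0) :
    ∑ t ∈ Icc 1 T, w t * ∑ v ∈ I Δ T ×ˢ I Δ T, both Δ g t t v ≤
      3 / (2 * (T : ℝ)) * ∑ b ∈ Icc 1 T,
        (∑ v ∈ J Δ 1 ×ˢ J Δ b, both Δ g 1 b v + ∑ v ∈ J Δ b ×ˢ J Δ 1, both Δ g b 1 v) := by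
  have e1 : ∑ t ∈ Icc 1 T, w t * ∑ v ∈ I Δ T ×ˢ I Δ T, both Δ g t t v =
      ∑ Q ∈ cells Δ, (∑ t ∈ Icc 1 T, w t * (inner Δ T Q.1 t * inner Δ T Q.2 t)) *
        (g Q 1 0 + g Q 0 1) := by
    simp only [sum_mul]
    rw [sum_comm]
    apply sum_congr rfl
    intro t ht
    rw [both_box (mem_Icc.mp ht).1 hz _ _ (I_sub ht) (I_sub ht), mul_sum]
    apply sum_congr rfl
    intro Q _
    unfold inner
    ring
  have e2 : ∑ b ∈ Icc 1 T,
        (∑ v ∈ J Δ 1 ×ˢ J Δ b, both Δ g 1 b v + ∑ v ∈ J Δ b ×ˢ J Δ 1, both Δ g b 1 v) =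
      ∑ Q ∈ cells Δ, (∑ b ∈ Icc 1 T,
        (full Δ Q.1 1 * full Δ Q.2 b + full Δ Q.1 b * full Δ Q.2 1)) * (g Q 1 0 + g Q 0 1) := by
    have e3 : ∀ b ∈ Icc 1 T,
        (∑ v ∈ J Δ 1 ×ˢ J Δ b, both Δ g 1 b v + ∑ v ∈ J Δ b ×ˢ J Δ 1, both Δ g b 1 v) =
        ∑ Q ∈ cells Δ, (full Δ Q.1 1 * full Δ Q.2 b + full Δ Q.1 b * full Δ Q.2 1) *
          (g Q 1 0 + g Q 0 1) := by
      intro b hb
      rw [both_box le_rfl hz _ _ (Subset.refl _) (Subset.refl _),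
        both_box (mem_Icc.mp hb).1 hz _ _ (Subset.refl _) (Subset.refl _), ← sum_add_distrib]
      apply sum_congr rfl
      intro Q _
      unfold full
      ring
    rw [sum_congr rfl e3, sum_comm]
    apply sum_congr rfl
    intro Q _
    rw [sum_mul]
  rw [e1, e2, mul_sum]
  apply sum_le_sum
  intro Q _
  have h1 := dom_cell (Δ := Δ) hT Q.1 Q.2
  have h2 := mul_le_mul_of_nonneg_right h1 (add_nonneg (hg Q 1 0) (hg Q 0 1))
  refine h2.trans (le_of_eq ?_)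
  ring

theorem card_I {Δ T : ℕ} (h : 3 * T ≤ Δ) : ((I Δ T).card : ℝ) = (Δ : ℝ) - 3 * T := by
  have h1 : (I Δ T).card = Δ - 3 * T := by
    unfold I
    rw [Int.card_Ioc]
    omega
  rw [h1, Nat.cast_sub h]
  push_cast
  ring

theorem card_J_le (Δ a : ℕ) : ((J Δ a).card : ℝ) ≤ Δ := by
  have h1 : (J Δ a).card ≤ Δ := by
    unfold J
    rw [Int.card_Icc]
    omega
  exact_mod_cast h1

/-- equal sets have cost zero in every product set -/
theorem zero_self {Δ : ℕ} {C δ : ℝ}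
    {g : Finset ℤ × Finset ℤ → ℕ → ℕ → ℝ} (hg : ∀ Q r b, 0 ≤ g Q r b)
    (h : ∀ R B : Finset (ℤ × ℤ), R ⊆ grid Δ → B ⊆ grid Δ → R.card = B.card → R.card ≤ 2 →
      δ * emd R B ≤ cellSum Δ g R B ∧ cellSum Δ g R B ≤ C * emd R B) :
    ∀ Q ∈ cells Δ, ∀ R : Finset (ℤ × ℤ), R ⊆ grid Δ → R.card ≤ 2 →
      g Q (R ∩ Q.1 ×ˢ Q.2).card (R ∩ Q.1 ×ˢ Q.2).card = 0 := by
  intro Q hQ R hR hc
  have h1 := (h R R hR hR rfl hc).2
  rw [emd_self, mul_zero] at h1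
  have h2 : cellSum Δ g R R = 0 := le_antisymm h1 (sum_nonneg fun Q _ => hg Q _ _)
  unfold cellSum at h2
  exact (sum_eq_zero_iff_of_nonneg fun Q _ => hg Q _ _).mp h2 Q hQ

/-- the lower bound with a free parameter -/
theorem core_T {Δ T : ℕ} (hT : 3 * T ≤ Δ) {C δ : ℝ} (hC : 0 ≤ C) (hδ : 0 ≤ δ)
    {g : Finset ℤ × Finset ℤ → ℕ → ℕ → ℝ} (hg : ∀ Q r b, 0 ≤ g Q r b)
    (h : ∀ R B : Finset (ℤ × ℤ), R ⊆ grid Δ → B ⊆ grid Δ → R.card = B.card → R.card ≤ 2 →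
      δ * emd R B ≤ cellSum Δ g R B ∧ cellSum Δ g R B ≤ C * emd R B) :
    δ * ((Δ : ℝ) - 3 * T) ^ 2 * Real.log (2 * T + 1) ≤ 6 * C * (Δ : ℝ) ^ 2 := by
  rcases Nat.eq_zero_or_pos T with h0 | hT1
  · subst h0
    have : (0 : ℝ) ≤ 6 * C * (Δ : ℝ) ^ 2 := by positivity
    simpa using this
  have hT0 : (0 : ℝ) < T := by exact_mod_cast hT1
  have hz := zero_self hg h
  have hd := dom hT1 hg hz
  have hL : 2 * (δ * ((Δ : ℝ) - 3 * T) ^ 2 * Real.log (2 * T + 1)) ≤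
      ∑ t ∈ Icc 1 T, w t * ∑ v ∈ I Δ T ×ˢ I Δ T, both Δ g t t v := by
    calc 2 * (δ * ((Δ : ℝ) - 3 * T) ^ 2 * Real.log (2 * T + 1)) ≤
        2 * (δ * ((Δ : ℝ) - 3 * T) ^ 2 * ∑ t ∈ Icc 1 T, w t * (2 * t)) := by
          have h1 := mul_le_mul_of_nonneg_left (log_le_sum T)
            (by positivity : 0 ≤ δ * ((Δ : ℝ) - 3 * T) ^ 2)
          linarith
      _ = ∑ t ∈ Icc 1 T, w t * ∑ v ∈ I Δ T ×ˢ I Δ T, 2 * (δ * (2 * (t : ℝ))) := by
          rw [mul_sum, mul_sum]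
          apply sum_congr rfl
          intro t _
          rw [sum_const, card_product, nsmul_eq_mul]
          push_cast
          rw [card_I hT]
          ring
      _ ≤ _ := by
          apply sum_le_sum
          intro t ht
          apply mul_le_mul_of_nonneg_left _ (w_nonneg (mem_Icc.mp ht).1)
          apply sum_le_sum
          intro v hv
          rw [mem_product] at hv
          have ht1 := (mem_Icc.mp ht).1
          have hr := red_sub (I_sub ht hv.1) (I_sub ht hv.2)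
          have hb := blu_sub (I_sub ht hv.1) (I_sub ht hv.2)
          have h1 := (h _ _ hr hb (by rw [card_red ht1, card_blu ht1]) (card_red ht1 v).le).1
          have h2 := (h _ _ hb hr (by rw [card_red ht1, card_blu ht1]) (card_blu ht1 v).le).1
          rw [emd_square ht1] at h1
          rw [emd_comm, emd_square ht1] at h2
          unfold both
          linarith
  have hone : ∀ a b : ℕ, 1 ≤ a → (∀ v, emd (red a b v) (blu a b v) ≤ 2) →
      ∑ v ∈ J Δ a ×ˢ J Δ b, both Δ g a b v ≤ 4 * C * (Δ : ℝ) ^ 2 := by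
    intro a b ha hab
    have hJJ : ((J Δ a).card : ℝ) * ((J Δ b).card : ℝ) ≤ (Δ : ℝ) ^ 2 := by
      rw [pow_two]
      exact mul_le_mul (card_J_le Δ a) (card_J_le Δ b) (by positivity) (by positivity)
    calc ∑ v ∈ J Δ a ×ˢ J Δ b, both Δ g a b v ≤ ∑ v ∈ J Δ a ×ˢ J Δ b, C * 4 := by
          apply sum_le_sum
          intro v hv
          rw [mem_product] at hv
          have hr := red_sub hv.1 hv.2
          have hb := blu_sub hv.1 hv.2
          have h1 := (h _ _ hr hb (by rw [card_red ha, card_blu ha]) (card_red ha v).le).2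
          have h2 := (h _ _ hb hr (by rw [card_red ha, card_blu ha]) (card_blu ha v).le).2
          rw [emd_comm] at h2
          have h3 := mul_le_mul_of_nonneg_left (hab v) hC
          unfold both
          linarith
      _ = (((J Δ a).card : ℝ) * ((J Δ b).card : ℝ)) * (C * 4) := by
          rw [sum_const, card_product, nsmul_eq_mul]
          push_cast
          ring
      _ ≤ (Δ : ℝ) ^ 2 * (C * 4) := mul_le_mul_of_nonneg_right hJJ (by positivity)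
      _ = _ := by ring
  have hR : 3 / (2 * (T : ℝ)) * ∑ b ∈ Icc 1 T,
        (∑ v ∈ J Δ 1 ×ˢ J Δ b, both Δ g 1 b v + ∑ v ∈ J Δ b ×ˢ J Δ 1, both Δ g b 1 v) ≤
      12 * C * (Δ : ℝ) ^ 2 := by
    calc _ ≤ 3 / (2 * (T : ℝ)) * ∑ b ∈ Icc 1 T, 8 * C * (Δ : ℝ) ^ 2 := by
          apply mul_le_mul_of_nonneg_left _ (by positivity)
          apply sum_le_sum
          intro b hb
          have hb1 := (mem_Icc.mp hb).1
          have h1 := hone 1 b le_rfl emd_thin_x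
          have h2 := hone b 1 hb1 (emd_thin_y hb1)
          linarith
      _ = 12 * C * (Δ : ℝ) ^ 2 := by
          rw [sum_const, Nat.card_Icc, nsmul_eq_mul, Nat.add_sub_cancel]
          field_simp
          ring
  linarith

/-- the lower bound for deterministic costs -/
theorem core {Δ : ℕ} (hΔ : 2 ≤ Δ) {C δ : ℝ} (hδ : 0 ≤ δ)
    {g : Finset ℤ × Finset ℤ → ℕ → ℕ → ℝ} (hg : ∀ Q r b, 0 ≤ g Q r b)
    (h : ∀ R B : Finset (ℤ × ℤ), R ⊆ grid Δ → B ⊆ grid Δ → R.card = B.card → R.card ≤ 2 →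
      δ * emd R B ≤ cellSum Δ g R B ∧ cellSum Δ g R B ≤ C * emd R B) :
    δ * Real.log Δ ≤ 26 * C := by
  have hδC : δ ≤ C := by
    have h1 : (1 : ℤ) ∈ J Δ 1 := by
      unfold J
      rw [mem_Icc]
      omega
    have h2 := h (red 1 1 (1, 1)) (blu 1 1 (1, 1)) (red_sub h1 h1) (blu_sub h1 h1)
      (by rw [card_red le_rfl, card_blu le_rfl]) (card_red le_rfl _).le
    rw [emd_square le_rfl] at h2
    have h3 := h2.1.trans h2.2
    push_cast at h3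
    linarith
  have hC : 0 ≤ C := hδ.trans hδC
  set T := Δ / 6 with hT
  have h3T : 3 * T ≤ Δ := by omega
  have h1 := core_T h3T hC hδ hg h
  have hΔ0 : (0 : ℝ) < Δ := by
    have : 0 < Δ := by omega
    exact_mod_cast this
  have hlog0 : 0 ≤ Real.log (2 * (T : ℝ) + 1) := by
    apply Real.log_nonneg
    have : (0 : ℝ) ≤ T := by positivity
    linarith
  have h6 : (6 : ℝ) * T ≤ Δ := by
    have : 6 * T ≤ Δ := by omega
    exact_mod_cast this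
  have h2 : δ * ((Δ : ℝ) ^ 2 / 4) * Real.log (2 * T + 1) ≤ 6 * C * (Δ : ℝ) ^ 2 := by
    refine le_trans ?_ h1
    apply mul_le_mul_of_nonneg_right _ hlog0
    apply mul_le_mul_of_nonneg_left _ hδ
    nlinarith
  have h3 : δ * Real.log (2 * T + 1) ≤ 24 * C := by
    have h4 : (Δ : ℝ) ^ 2 * (δ * Real.log (2 * T + 1)) ≤ (Δ : ℝ) ^ 2 * (24 * C) := by linarith
    exact le_of_mul_le_mul_left h4 (by positivity)
  have h5 : Real.log Δ ≤ Real.log 5 + Real.log (2 * T + 1) := by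
    rw [← Real.log_mul (by norm_num) (by positivity)]
    apply Real.log_le_log hΔ0
    have : Δ ≤ 5 * (2 * T + 1) := by omega
    exact_mod_cast this
  have hlog5 : Real.log 5 ≤ 2 := by
    have h7 : Real.log 5 ≤ Real.log (Real.exp 2) := by
      apply Real.log_le_log (by norm_num)
      have h8 : (2.7 : ℝ) ≤ Real.exp 1 := by
        have := Real.exp_one_gt_d9
        linarith
      calc (5 : ℝ) ≤ 2.7 ^ 2 := by norm_num
        _ ≤ Real.exp 1 ^ 2 := by gcongr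
        _ = Real.exp 2 := by
            rw [← Real.exp_nat_mul]
            norm_num
    rwa [Real.log_exp] at h7
  calc δ * Real.log Δ ≤ δ * (Real.log 5 + Real.log (2 * T + 1)) :=
        mul_le_mul_of_nonneg_left h5 hδ
    _ = δ * Real.log 5 + δ * Real.log (2 * T + 1) := by ring
    _ ≤ C * 2 + 24 * C := by
        apply add_le_add _ h3
        exact mul_le_mul hδC hlog5 (Real.log_nonneg (by norm_num)) hC
    _ = 26 * C := by ring

end Pool.Agent.H51.EMD
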