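import Mathlib

/-!
# Earth-Mover Distance in the planar grid and sums over product sets (MP_dbcd2a_lc): definitions
-/

set_option autoImplicit false

namespace Pool.Agent.H51.EMD

open Finset

/-- the grid `{1, …, Δ} × {1, …, Δ}` -/
noncomputable def grid (Δ : ℕ) : Finset (ℤ × ℤ) := Icc (1 : ℤ) Δ ×ˢ Icc (1 : ℤ) Δ

/-- Earth-Mover Distance: the minimum over all bijections from `R` to `B` of the sum of the `L₁`
distances -/
noncomputable def emd (R B : Finset (ℤ × ℤ)) : ℝ :=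
  ⨅ π : R ≃ B, ∑ p : R, (|(p.1.1 : ℝ) - (π p).1.1| + |(p.1.2 : ℝ) - (π p).1.2|)

/-- all pairs of subsets of `{1, …, Δ}`; the pair `(X, Y)` stands for the product set `X × Y` -/
noncomputable def cells (Δ : ℕ) : Finset (Finset ℤ × Finset ℤ) :=
  (Icc (1 : ℤ) Δ).powerset ×ˢ (Icc (1 : ℤ) Δ).powerset

/-- the sum over all product sets `X × Y` of the cost `g (X, Y) r b`, where `r` is the number of
red and `b` the number of blue points in `X × Y` -/
noncomputable def cellSum {M : Type*} [AddCommMonoid M] (Δ : ℕ)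
    (g : Finset ℤ × Finset ℤ → ℕ → ℕ → M) (R B : Finset (ℤ × ℤ)) : M :=
  ∑ Q ∈ cells Δ, g Q (R ∩ Q.1 ×ˢ Q.2).card (B ∩ Q.1 ×ˢ Q.2).card

end Pool.Agent.H51.EMD
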