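import Pool.Agent.H51.EMD.OneD

/-!
# Product sums and planar Earth-Mover Distance: the gadgets
-/

set_option autoImplicit false

namespace Pool.Agent.H51.EMD

open Finset

/-- red points of the gadget with sides `a`, `b` at `v` -/
def red (a b : ℕ) (v : ℤ × ℤ) : Finset (ℤ × ℤ) := {v, (v.1 + a, v.2 + b)}

/-- blue points of the gadget with sides `a`, `b` at `v` -/
def blu (a b : ℕ) (v : ℤ × ℤ) : Finset (ℤ × ℤ) := {(v.1 + a, v.2), (v.1, v.2 + b)}

theorem card_red {a b : ℕ} (ha : 1 ≤ a) (v : ℤ × ℤ) : (red a b v).card = 2 := by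
  unfold red
  apply card_pair
  intro h
  have := congrArg Prod.fst h
  simp at this
  omega

theorem card_blu {a b : ℕ} (ha : 1 ≤ a) (v : ℤ × ℤ) : (blu a b v).card = 2 := by
  unfold blu
  apply card_pair
  intro h
  have := congrArg Prod.fst h
  simp at this
  omega

theorem mem_grid {Δ : ℕ} {p : ℤ × ℤ} :
    p ∈ grid Δ ↔ (1 ≤ p.1 ∧ p.1 ≤ Δ) ∧ 1 ≤ p.2 ∧ p.2 ≤ Δ := by
  unfold grid
  rw [mem_product, mem_Icc, mem_Icc]

theorem red_sub {Δ a b : ℕ} {v : ℤ × ℤ} (h1 : v.1 ∈ J Δ a) (h2 : v.2 ∈ J Δ b) :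
    red a b v ⊆ grid Δ := by
  unfold J at h1 h2
  rw [mem_Icc] at h1 h2
  intro p hp
  unfold red at hp
  rw [mem_insert, mem_singleton] at hp
  rw [mem_grid]
  rcases hp with rfl | rfl
  · omega
  · simp only
    omega

theorem blu_sub {Δ a b : ℕ} {v : ℤ × ℤ} (h1 : v.1 ∈ J Δ a) (h2 : v.2 ∈ J Δ b) :
    blu a b v ⊆ grid Δ := by
  unfold J at h1 h2
  rw [mem_Icc] at h1 h2
  intro p hp
  unfold blu at hp
  rw [mem_insert, mem_singleton] at hp
  rw [mem_grid]
  rcases hp with rfl | rfl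
  · simp only
    omega
  · simp only
    omega

/-- all costs are the same -/
theorem emd_const {R B : Finset (ℤ × ℤ)} (hc : R.card = B.card) (t : ℝ)
    (h : ∀ p ∈ R, ∀ q ∈ B, |(p.1 : ℝ) - q.1| + |(p.2 : ℝ) - q.2| = t) :
    emd R B = R.card * t := by
  have : Nonempty (R ≃ B) := Fintype.card_eq.mp (by simpa using hc)
  unfold emd
  have h1 : ∀ π : R ≃ B, ∑ p : R, (|(p.1.1 : ℝ) - (π p).1.1| + |(p.1.2 : ℝ) - (π p).1.2|) =
      R.card * t := by
    intro π
    rw [sum_congr rfl fun p _ => h p.1 p.2 (π p).1 (π p).2]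
    simp
  rw [iInf_congr h1, ciInf_const]

theorem emd_le {R B : Finset (ℤ × ℤ)} (hc : R.card = B.card) (f : ℤ × ℤ → ℤ × ℤ)
    (hf : Function.Injective f) (hB : ∀ p ∈ R, f p ∈ B) :
    emd R B ≤ ∑ p ∈ R, (|(p.1 : ℝ) - (f p).1| + |(p.2 : ℝ) - (f p).2|) := by
  classical
  have hbij : Function.Bijective fun p : R => (⟨f p.1, hB p.1 p.2⟩ : B) := by
    rw [Fintype.bijective_iff_injective_and_card]
    constructor
    · intro p q hpq
      apply Subtype.ext
      apply hf
      exact congrArg Subtype.val hpq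
    · simpa using hc
  unfold emd
  have h1 : BddBelow (Set.range fun π : R ≃ B =>
      ∑ p : R, (|(p.1.1 : ℝ) - (π p).1.1| + |(p.1.2 : ℝ) - (π p).1.2|)) := by
    refine ⟨0, ?_⟩
    rintro x ⟨π, rfl⟩
    positivity
  refine (ciInf_le h1 (Equiv.ofBijective _ hbij)).trans (le_of_eq ?_)
  rw [← Finset.sum_coe_sort R]
  rfl

theorem emd_nonneg (R B : Finset (ℤ × ℤ)) : 0 ≤ emd R B := by
  unfold emd
  apply Real.iInf_nonneg
  intro π
  positivity

theorem emd_self (R : Finset (ℤ × ℤ)) : emd R R = 0 := by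
  apply le_antisymm _ (emd_nonneg R R)
  refine (emd_le rfl id Function.injective_id fun p hp => hp).trans (le_of_eq ?_)
  simp

theorem emd_comm (R B : Finset (ℤ × ℤ)) : emd R B = emd B R := by
  unfold emd
  refine Equiv.iInf_congr (Equiv.symmEquiv R B) fun π => ?_
  rw [← Equiv.sum_comp π]
  apply sum_congr rfl
  intro p _
  have h : (Equiv.symmEquiv R B) π (π p) = p := π.symm_apply_apply p
  rw [h, abs_sub_comm (((π p).1.1 : ℤ) : ℝ), abs_sub_comm (((π p).1.2 : ℤ) : ℝ)]

theorem emd_square {t : ℕ} (ht : 1 ≤ t) (v : ℤ × ℤ) : emd (red t t v) (blu t t v) = 2 * t := by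
  rw [emd_const (by rw [card_red ht, card_blu ht]) (t : ℝ), card_red ht]
  · push_cast
    ring
  · intro p hp q hq
    unfold red at hp
    unfold blu at hq
    rw [mem_insert, mem_singleton] at hp hq
    have h0 : (0 : ℝ) ≤ t := by positivity
    rcases hp with rfl | rfl <;> rcases hq with rfl | rfl <;> push_cast <;>
      simp [abs_of_nonneg h0]

theorem emd_thin_x {b : ℕ} (v : ℤ × ℤ) : emd (red 1 b v) (blu 1 b v) ≤ 2 := by
  refine (emd_le (by rw [card_red le_rfl, card_blu le_rfl])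
    (fun p => (2 * v.1 + 1 - p.1, p.2)) ?_ ?_).trans ?_
  · intro p q h
    have h1 := congrArg Prod.fst h
    have h2 := congrArg Prod.snd h
    simp only at h1 h2
    exact Prod.ext (by omega) h2
  · intro p hp
    unfold red at hp
    unfold blu
    rw [mem_insert, mem_singleton] at hp ⊢
    rcases hp with rfl | rfl
    · left
      apply Prod.ext
      · simp only
        push_cast
        ring
      · rfl
    · right
      apply Prod.ext
      · simp only
        push_cast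
        ring
      · rfl
  · rw [red, sum_pair]
    · push_cast
      have e1 : (v.1 : ℝ) - (2 * v.1 + 1 - v.1) = -1 := by ring
      have e2 : (v.1 : ℝ) + 1 - (2 * v.1 + 1 - (v.1 + 1)) = 1 := by ring
      rw [e1, e2]
      simp
      norm_num
    · intro h
      have := congrArg Prod.fst h
      simp at this

theorem emd_thin_y {b : ℕ} (hb : 1 ≤ b) (v : ℤ × ℤ) : emd (red b 1 v) (blu b 1 v) ≤ 2 := by
  refine (emd_le (by rw [card_red hb, card_blu hb])
    (fun p => (p.1, 2 * v.2 + 1 - p.2)) ?_ ?_).trans ?_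
  · intro p q h
    have h1 := congrArg Prod.fst h
    have h2 := congrArg Prod.snd h
    simp only at h1 h2
    exact Prod.ext h1 (by omega)
  · intro p hp
    unfold red at hp
    unfold blu
    rw [mem_insert, mem_singleton] at hp ⊢
    rcases hp with rfl | rfl
    · right
      apply Prod.ext
      · rfl
      · simp only
        push_cast
        ring
    · left
      apply Prod.ext
      · rfl
      · simp only
        push_cast
        ring
  · rw [red, sum_pair]
    · push_cast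
      have e1 : (v.2 : ℝ) - (2 * v.2 + 1 - v.2) = -1 := by ring
      have e2 : (v.2 : ℝ) + 1 - (2 * v.2 + 1 - (v.2 + 1)) = 1 := by ring
      rw [e1, e2]
      simp
      norm_num
    · intro h
      have := congrArg Prod.snd h
      simp at this

/-! ### one product set -/

theorem card_pair_inter {p q : ℤ × ℤ} (h : p ≠ q) (S : Finset (ℤ × ℤ)) :
    (({p, q} : Finset (ℤ × ℤ)) ∩ S).card = (if p ∈ S then 1 else 0) + (if q ∈ S then 1 else 0) := by
  by_cases hp : p ∈ S <;> by_cases hq : q ∈ S <;>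
    simp [hp, hq, Finset.insert_inter_of_mem, Finset.insert_inter_of_notMem, h]

/-- one product set and one gadget with both colourings: the cost is charged exactly if both
coordinates are separated -/
theorem term {Q : Finset ℤ × Finset ℤ} {g : ℕ → ℕ → ℝ} {a b : ℕ} (ha : 1 ≤ a) (v : ℤ × ℤ)
    (h2 : g (red a b v ∩ Q.1 ×ˢ Q.2).card (red a b v ∩ Q.1 ×ˢ Q.2).card = 0) :
    g (red a b v ∩ Q.1 ×ˢ Q.2).card (blu a b v ∩ Q.1 ×ˢ Q.2).card +
      g (blu a b v ∩ Q.1 ×ˢ Q.2).card (red a b v ∩ Q.1 ×ˢ Q.2).card =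
      D a Q.1 v.1 * D b Q.2 v.2 * (g 1 0 + g 0 1) := by
  have n1 : v ≠ (v.1 + (a : ℤ), v.2 + (b : ℤ)) := by
    intro h
    have := congrArg Prod.fst h
    simp at this
    omega
  have n2 : (v.1 + (a : ℤ), v.2) ≠ (v.1, v.2 + (b : ℤ)) := by
    intro h
    have := congrArg Prod.fst h
    simp at this
    omega
  have c1 : (red a b v ∩ Q.1 ×ˢ Q.2).card =
      (if v.1 ∈ Q.1 ∧ v.2 ∈ Q.2 then 1 else 0) +
      (if v.1 + (a : ℤ) ∈ Q.1 ∧ v.2 + (b : ℤ) ∈ Q.2 then 1 else 0) := by
    rw [red, card_pair_inter n1]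
    simp only [mem_product]
  have c2 : (blu a b v ∩ Q.1 ×ˢ Q.2).card =
      (if v.1 + (a : ℤ) ∈ Q.1 ∧ v.2 ∈ Q.2 then 1 else 0) +
      (if v.1 ∈ Q.1 ∧ v.2 + (b : ℤ) ∈ Q.2 then 1 else 0) := by
    rw [blu, card_pair_inter n2]
    simp only [mem_product]
  rw [c1] at h2
  rw [c1, c2]
  unfold D
  by_cases x1 : v.1 ∈ Q.1 <;> by_cases x2 : v.1 + (a : ℤ) ∈ Q.1 <;>
    by_cases y1 : v.2 ∈ Q.2 <;> by_cases y2 : v.2 + (b : ℤ) ∈ Q.2 <;>
    simp [x1, x2, y1, y2] at h2 ⊢ <;> linarith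

end Pool.Agent.H51.EMD
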