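import Mathlib

/-!
# Product sums and planar Earth-Mover Distance: the weights
-/

set_option autoImplicit false

namespace Pool.Agent.H51.EMD

open Finset

/-- weight of the square gadget of side `t` -/
noncomputable def w (t : ℕ) : ℝ := 2 / (4 * (t : ℝ) ^ 2 - 1)

theorem w_succ (t : ℕ) : w (t + 1) = 2 / ((2 * (t : ℝ) + 1) * (2 * t + 3)) := by
  unfold w
  congr 1
  push_cast
  ring

theorem w_nonneg {t : ℕ} (ht : 1 ≤ t) : 0 ≤ w t := by
  obtain ⟨s, rfl⟩ : ∃ s, t = s + 1 := ⟨t - 1, by omega⟩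
  rw [w_succ]
  positivity

theorem log_le_half {y : ℝ} (hy : 1 ≤ y) : Real.log y ≤ (y - y⁻¹) / 2 := by
  have h0 : 0 < y := by linarith
  have h1 : Real.log y ≤ Real.sinh (Real.log y) := by
    rw [Real.self_le_sinh_iff]
    exact Real.log_nonneg hy
  rw [Real.sinh_eq, Real.exp_neg, Real.exp_log h0] at h1
  exact h1

theorem log_le_sum (T : ℕ) : Real.log (2 * (T : ℝ) + 1) ≤ ∑ t ∈ Icc 1 T, w t * (2 * t) := by
  induction T with
  | zero => simp
  | succ T ih =>
    rw [Finset.sum_Icc_succ_top (by omega), w_succ]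
    have h0 : (0 : ℝ) < 2 * T + 1 := by positivity
    have h3 : (0 : ℝ) < 2 * T + 3 := by positivity
    have h1 : Real.log (2 * ((T + 1 : ℕ) : ℝ) + 1) =
        Real.log (2 * (T : ℝ) + 1) + Real.log ((2 * T + 3) / (2 * T + 1)) := by
      rw [← Real.log_mul h0.ne' (by positivity)]
      congr 1
      push_cast
      field_simp
      ring
    have h2 : Real.log ((2 * (T : ℝ) + 3) / (2 * T + 1)) ≤
        ((2 * (T : ℝ) + 3) / (2 * T + 1) - ((2 * (T : ℝ) + 3) / (2 * T + 1))⁻¹) / 2 := by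
      apply log_le_half
      rw [le_div_iff₀ h0]
      linarith
    have h4 : ((2 * (T : ℝ) + 3) / (2 * T + 1) - ((2 * (T : ℝ) + 3) / (2 * T + 1))⁻¹) / 2 =
        2 / ((2 * (T : ℝ) + 1) * (2 * T + 3)) * (2 * ((T + 1 : ℕ) : ℝ)) := by
      rw [inv_div]
      push_cast
      field_simp
      ring
    rw [h1]
    rw [h4] at h2
    linarith

end Pool.Agent.H51.EMD
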