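import Pool.Agent.H51.EMD.Defs
import Pool.Agent.H51.EMD.Ident

/-!
# Product sums and planar Earth-Mover Distance: counting translates in one dimension
-/

set_option autoImplicit false

namespace Pool.Agent.H51.EMD

open Finset

open Classical in
/-- exactly one of `i`, `i + a` is in `X` -/
noncomputable def D (a : ℤ) (X : Finset ℤ) (i : ℤ) : ℝ := if (i ∈ X ↔ i + a ∈ X) then 0 else 1

/-- positions of the square gadgets -/
noncomputable def I (Δ T : ℕ) : Finset ℤ := Ioc (T : ℤ) (Δ - 2 * T)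

/-- positions of a gadget of side `a` inside the grid -/
noncomputable def J (Δ a : ℕ) : Finset ℤ := Icc 1 ((Δ : ℤ) - a)

theorem D_nonneg (a : ℤ) (X : Finset ℤ) (i : ℤ) : 0 ≤ D a X i := by
  unfold D
  split_ifs <;> norm_num

theorem D_zero (X : Finset ℤ) (i : ℤ) : D 0 X i = 0 := by
  unfold D
  simp

theorem D_tri (a b : ℤ) (X : Finset ℤ) (i : ℤ) : D (a + b) X i ≤ D a X i + D b X (i + a) := by
  unfold D
  rw [← add_assoc]
  by_cases h1 : i ∈ X <;> by_cases h2 : i + a ∈ X <;> by_cases h3 : i + a + b ∈ X <;>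
    simp [h1, h2, h3]

theorem D_neg (a : ℤ) (X : Finset ℤ) (i : ℤ) : D (-a) X (i + a) = D a X i := by
  unfold D
  rw [add_neg_cancel_right]
  by_cases h1 : i ∈ X <;> by_cases h2 : i + a ∈ X <;> simp [h1, h2]

/-- number of positions of a gadget of side `b` which separate a point of `X` -/
noncomputable def full (Δ : ℕ) (X : Finset ℤ) (b : ℕ) : ℝ := ∑ i ∈ J Δ b, D b X i

/-- the same for the square gadgets -/
noncomputable def inner (Δ T : ℕ) (X : Finset ℤ) (t : ℕ) : ℝ := ∑ i ∈ I Δ T, D t X i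

theorem full_nonneg (Δ : ℕ) (X : Finset ℤ) (b : ℕ) : 0 ≤ full Δ X b :=
  sum_nonneg fun _ _ => D_nonneg _ _ _

theorem inner_nonneg (Δ T : ℕ) (X : Finset ℤ) (t : ℕ) : 0 ≤ inner Δ T X t :=
  sum_nonneg fun _ _ => D_nonneg _ _ _

theorem full_zero (Δ : ℕ) (X : Finset ℤ) : full Δ X 0 = 0 := by
  unfold full
  apply sum_eq_zero
  intro i _
  exact D_zero X i

/-- a shifted copy of the inner positions -/
theorem shift_le {Δ T : ℕ} (X : Finset ℤ) (s : ℤ) (c : ℕ) (h0 : 0 ≤ s) (hs : s + c ≤ 2 * T) :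
    ∑ i ∈ I Δ T, D c X (i + s) ≤ full Δ X c := by
  unfold full
  rw [← sum_image (f := fun k => D (c : ℤ) X k) (g := fun i => i + s)
    (fun a _ b _ h => by simpa using h)]
  apply sum_le_sum_of_subset_of_nonneg
  · intro k hk
    obtain ⟨i, hi, rfl⟩ := mem_image.mp hk
    unfold I at hi
    unfold J
    rw [mem_Ioc] at hi
    rw [mem_Icc]
    omega
  · intro k _ _
    exact D_nonneg _ _ _

theorem D_le_sum (X : Finset ℤ) (i : ℤ) (t : ℕ) : D t X i ≤ ∑ s ∈ range t, D 1 X (i + s) := by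
  induction t with
  | zero => simp [D_zero]
  | succ t ih =>
    rw [sum_range_succ]
    have h := D_tri t 1 X i
    push_cast
    linarith

/-- many small steps -/
theorem inner_le_one {Δ T : ℕ} (X : Finset ℤ) {t : ℕ} (ht : t ≤ T) :
    inner Δ T X t ≤ t * full Δ X 1 := by
  unfold inner
  calc ∑ i ∈ I Δ T, D t X i ≤ ∑ i ∈ I Δ T, ∑ s ∈ range t, D 1 X (i + s) :=
        sum_le_sum fun i _ => D_le_sum X i t
    _ = ∑ s ∈ range t, ∑ i ∈ I Δ T, D 1 X (i + s) := sum_comm
    _ ≤ ∑ s ∈ range t, full Δ X 1 := by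
        apply sum_le_sum
        intro s hs
        rw [mem_range] at hs
        have h := shift_le (Δ := Δ) (T := T) X (s : ℤ) 1 (by positivity) (by push_cast; omega)
        exact_mod_cast h
    _ = t * full Δ X 1 := by
        rw [sum_const, card_range, nsmul_eq_mul]

theorem inner_le_two {Δ T : ℕ} (X : Finset ℤ) {t b : ℕ} (ht : t ≤ T) (hb : b ≤ T) :
    inner Δ T X t ≤ full Δ X b + full Δ X ((t - b) + (b - t)) := by
  have h0 : inner Δ T X t ≤ ∑ i ∈ I Δ T, D b X i + ∑ i ∈ I Δ T, D ((t : ℤ) - b) X (i + b) := by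
    unfold inner
    rw [← sum_add_distrib]
    apply sum_le_sum
    intro i _
    have h := D_tri b ((t : ℤ) - b) X i
    have e : (b : ℤ) + (t - b) = t := by ring
    rw [e] at h
    exact h
  have h1 : ∑ i ∈ I Δ T, D b X i ≤ full Δ X b := by
    have h := shift_le (Δ := Δ) (T := T) X 0 b le_rfl (by omega)
    simpa using h
  have h2 : ∑ i ∈ I Δ T, D ((t : ℤ) - b) X (i + b) ≤ full Δ X ((t - b) + (b - t)) := by
    rcases le_total b t with h | h
    · have e : (t - b) + (b - t) = t - b := by omega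
      rw [e]
      have h3 := shift_le (Δ := Δ) (T := T) X (b : ℤ) (t - b) (by positivity)
        (by push_cast [h]; omega)
      rw [Nat.cast_sub h] at h3
      exact h3
    · have e : (t - b) + (b - t) = b - t := by omega
      rw [e]
      have h3 := shift_le (Δ := Δ) (T := T) X (t : ℤ) (b - t) (by positivity)
        (by push_cast [h]; omega)
      rw [Nat.cast_sub h] at h3
      refine le_trans (le_of_eq ?_) h3
      apply sum_congr rfl
      intro i _
      have h4 := D_neg ((b : ℤ) - t) X (i + t)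
      have e1 : -((b : ℤ) - t) = t - b := by ring
      have e2 : i + (t : ℤ) + (b - t) = i + b := by ring
      rw [e1, e2] at h4
      exact h4
  linarith

theorem fold_sum (h : ℕ → ℝ) (h0 : h 0 = 0) (hh : ∀ k, 0 ≤ h k) {t T : ℕ} (ht : t ≤ T) :
    ∑ b ∈ Icc 1 T, h ((t - b) + (b - t)) ≤ 2 * ∑ b ∈ Icc 1 T, h b := by
  have hsplit : Icc 1 T = Icc 1 t ∪ Ioc t T := by
    ext k
    simp only [mem_Icc, mem_union, mem_Ioc]
    omega
  have hdisj : Disjoint (Icc 1 t) (Ioc t T) := by
    rw [disjoint_left]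
    intro k hk hk'
    rw [mem_Icc] at hk
    rw [mem_Ioc] at hk'
    omega
  have e1 : ∑ b ∈ Icc 1 t, h ((t - b) + (b - t)) ≤ ∑ b ∈ Icc 1 T, h b := by
    have h1 : ∑ b ∈ Icc 1 t, h ((t - b) + (b - t)) = ∑ k ∈ range t, h k := by
      apply sum_nbij' (fun b => t - b) (fun k => t - k)
      · intro b hb
        rw [mem_Icc] at hb
        rw [mem_range]
        omega
      · intro k hk
        rw [mem_range] at hk
        rw [mem_Icc]
        omega
      · intro b hb
        rw [mem_Icc] at hb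
        omega
      · intro k hk
        rw [mem_range] at hk
        omega
      · intro b hb
        rw [mem_Icc] at hb
        congr 1
        omega
    rw [h1]
    have h2 : ∑ k ∈ range t, h k = ∑ k ∈ (range t).erase 0, h k := by
      symm
      exact sum_erase _ h0
    rw [h2]
    apply sum_le_sum_of_subset_of_nonneg
    · intro k hk
      rw [mem_erase, mem_range] at hk
      rw [mem_Icc]
      omega
    · intro k _ _
      exact hh k
  have e2 : ∑ b ∈ Ioc t T, h ((t - b) + (b - t)) ≤ ∑ b ∈ Icc 1 T, h b := by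
    have h1 : ∑ b ∈ Ioc t T, h ((t - b) + (b - t)) = ∑ k ∈ Icc 1 (T - t), h k := by
      apply sum_nbij' (fun b => b - t) (fun k => k + t)
      · intro b hb
        rw [mem_Ioc] at hb
        rw [mem_Icc]
        omega
      · intro k hk
        rw [mem_Icc] at hk
        rw [mem_Ioc]
        omega
      · intro b hb
        rw [mem_Ioc] at hb
        omega
      · intro k hk
        omega
      · intro b hb
        rw [mem_Ioc] at hb
        congr 1
        omega
    rw [h1]
    apply sum_le_sum_of_subset_of_nonneg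
    · intro k hk
      rw [mem_Icc] at hk ⊢
      omega
    · intro k _ _
      exact hh k
  calc ∑ b ∈ Icc 1 T, h ((t - b) + (b - t)) =
      ∑ b ∈ Icc 1 t, h ((t - b) + (b - t)) + ∑ b ∈ Ioc t T, h ((t - b) + (b - t)) := by
        rw [hsplit, sum_union hdisj]
    _ ≤ _ := by linarith

/-- comparison with the average -/
theorem inner_le_avg {Δ T : ℕ} (X : Finset ℤ) {t : ℕ} (ht : t ≤ T) :
    T * inner Δ T X t ≤ 3 * ∑ b ∈ Icc 1 T, full Δ X b := by
  have h1 : ∑ b ∈ Icc 1 T, inner Δ T X t ≤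
      ∑ b ∈ Icc 1 T, (full Δ X b + full Δ X ((t - b) + (b - t))) := by
    apply sum_le_sum
    intro b hb
    exact inner_le_two X ht (mem_Icc.mp hb).2
  rw [sum_const, Nat.card_Icc, nsmul_eq_mul, Nat.add_sub_cancel, sum_add_distrib] at h1
  have h2 := fold_sum (full Δ X) (full_zero Δ X) (full_nonneg Δ X) ht
  linarith

/-- weighted sum of squares of `min (t a) m` -/
theorem sum_w_sq {a m : ℝ} (ha : 0 ≤ a) (hm : 0 ≤ m) (T : ℕ) :
    ∑ t ∈ Icc 1 T, w t * (min (t * a) m) ^ 2 + (min (T * a) m) ^ 2 / (2 * T + 1) ≤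
      a * min (T * a) m := by
  induction T with
  | zero => simp [hm]
  | succ T ih =>
    rw [Finset.sum_Icc_succ_top (by omega), w_succ]
    set x := min ((T : ℝ) * a) m with hx
    set y := min (((T + 1 : ℕ) : ℝ) * a) m with hy
    have h1 : x ≤ T * a := min_le_left _ _
    have h2 : y ≤ (T + 1) * a := by
      have := min_le_left (((T + 1 : ℕ) : ℝ) * a) m
      push_cast at this
      rw [hy]
      push_cast
      exact this
    have hxy : x ≤ y := by
      rw [hx, hy]
      apply min_le_min_right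
      apply mul_le_mul_of_nonneg_right _ ha
      push_cast
      linarith
    have h3 : (y - x) * (y + x - (2 * T + 1) * a) ≤ 0 := by
      apply mul_nonpos_of_nonneg_of_nonpos
      · linarith
      · nlinarith
    have hT1 : (0 : ℝ) < 2 * T + 1 := by positivity
    have hT3 : (0 : ℝ) < 2 * T + 3 := by positivity
    have e1 : 2 / ((2 * (T : ℝ) + 1) * (2 * T + 3)) * y ^ 2 +
        y ^ 2 / (2 * ((T + 1 : ℕ) : ℝ) + 1) = y ^ 2 / (2 * T + 1) := by
      push_cast
      field_simp
      ring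
    have e2 : y ^ 2 / (2 * T + 1) - x ^ 2 / (2 * T + 1) ≤ a * y - a * x := by
      rw [← sub_div, div_le_iff₀ hT1]
      nlinarith
    linarith

/-- two sequences -/
theorem prod_dom {T : ℕ} (φ ψ : ℕ → ℝ) {a b mA mB : ℝ} (ha : 0 ≤ a) (hb : 0 ≤ b)
    (hA : 0 ≤ mA) (hB : 0 ≤ mB)
    (h0φ : ∀ t ∈ Icc 1 T, 0 ≤ φ t) (h0ψ : ∀ t ∈ Icc 1 T, 0 ≤ ψ t)
    (hφ : ∀ t ∈ Icc 1 T, φ t ≤ t * a) (hψ : ∀ t ∈ Icc 1 T, ψ t ≤ t * b)
    (hφ' : ∀ t ∈ Icc 1 T, φ t ≤ mA) (hψ' : ∀ t ∈ Icc 1 T, ψ t ≤ mB) :
    ∑ t ∈ Icc 1 T, w t * (φ t * ψ t) ≤ (b * mA + a * mB) / 2 := by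
  have hR : 0 ≤ (b * mA + a * mB) / 2 := by positivity
  rcases ha.eq_or_lt with ha0 | ha0
  · have h : ∑ t ∈ Icc 1 T, w t * (φ t * ψ t) = 0 := by
      apply sum_eq_zero
      intro t ht
      have h1 : φ t = 0 := le_antisymm (by have := hφ t ht; rw [← ha0] at this; simpa using this)
        (h0φ t ht)
      rw [h1]
      ring
    rw [h]
    exact hR
  rcases hb.eq_or_lt with hb0 | hb0
  · have h : ∑ t ∈ Icc 1 T, w t * (φ t * ψ t) = 0 := by
      apply sum_eq_zero
      intro t ht
      have h1 : ψ t = 0 := le_antisymm (by have := hψ t ht; rw [← hb0] at this; simpa using this)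
        (h0ψ t ht)
      rw [h1]
      ring
    rw [h]
    exact hR
  have sA := sum_w_sq ha hA T
  have sB := sum_w_sq hb hB T
  have tA : ∑ t ∈ Icc 1 T, w t * (min (t * a) mA) ^ 2 ≤ a * mA := by
    have h1 : (0 : ℝ) ≤ (min (T * a) mA) ^ 2 / (2 * T + 1) := by positivity
    have h2 : a * min (T * a) mA ≤ a * mA := mul_le_mul_of_nonneg_left (min_le_right _ _) ha
    linarith
  have tB : ∑ t ∈ Icc 1 T, w t * (min (t * b) mB) ^ 2 ≤ b * mB := by
    have h1 : (0 : ℝ) ≤ (min (T * b) mB) ^ 2 / (2 * T + 1) := by positivity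
    have h2 : b * min (T * b) mB ≤ b * mB := mul_le_mul_of_nonneg_left (min_le_right _ _) hb
    linarith
  calc ∑ t ∈ Icc 1 T, w t * (φ t * ψ t) ≤
      ∑ t ∈ Icc 1 T, (b / (2 * a) * (w t * (min (t * a) mA) ^ 2) +
        a / (2 * b) * (w t * (min (t * b) mB) ^ 2)) := by
        apply sum_le_sum
        intro t ht
        have hw := w_nonneg (mem_Icc.mp ht).1
        set x := min ((t : ℝ) * a) mA with hx
        set y := min ((t : ℝ) * b) mB with hy
        have h1 : φ t ≤ x := le_min (hφ t ht) (hφ' t ht)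
        have h2 : ψ t ≤ y := le_min (hψ t ht) (hψ' t ht)
        have h3 : φ t * ψ t ≤ x * y := mul_le_mul h1 h2 (h0ψ t ht) ((h0φ t ht).trans h1)
        have h4 : x * y ≤ b / (2 * a) * x ^ 2 + a / (2 * b) * y ^ 2 := by
          have h5 : b / (2 * a) * x ^ 2 + a / (2 * b) * y ^ 2 - x * y =
              (b * x - a * y) ^ 2 / (2 * a * b) := by
            field_simp
            ring
          have h6 : 0 ≤ (b * x - a * y) ^ 2 / (2 * a * b) := by positivity
          linarith
        calc w t * (φ t * ψ t) ≤ w t * (b / (2 * a) * x ^ 2 + a / (2 * b) * y ^ 2) :=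
              mul_le_mul_of_nonneg_left (h3.trans h4) hw
          _ = _ := by ring
    _ = b / (2 * a) * ∑ t ∈ Icc 1 T, w t * (min (t * a) mA) ^ 2 +
        a / (2 * b) * ∑ t ∈ Icc 1 T, w t * (min (t * b) mB) ^ 2 := by
        rw [sum_add_distrib, ← mul_sum, ← mul_sum]
    _ ≤ b / (2 * a) * (a * mA) + a / (2 * b) * (b * mB) := by
        gcongr
    _ = (b * mA + a * mB) / 2 := by
        field_simp

end Pool.Agent.H51.EMD
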