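import Pool.Agent.H51.EMD.Core

/-!
# Product sums and planar Earth-Mover Distance: random costs
-/

set_option autoImplicit false

namespace Pool.Agent.H51.EMD

open Finset MeasureTheory ENNReal

theorem prob {Ω : Type*} [MeasurableSpace Ω] (μ : Measure Ω) {Δ : ℕ} (hΔ : 2 ≤ Δ)
    {C p : ℝ} (hC : 0 ≤ C) (hp : 0 ≤ p)
    (g : Ω → Finset ℤ × Finset ℤ → ℕ → ℕ → ℝ≥0∞)
    (hm : ∀ Q ∈ cells Δ, ∀ r b, AEMeasurable (fun ω => g ω Q r b) μ)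
    (hlow : ∀ R B : Finset (ℤ × ℤ), R ⊆ grid Δ → B ⊆ grid Δ → R.card = B.card → R.card ≤ 2 →
      ENNReal.ofReal p ≤ μ {ω | ENNReal.ofReal (emd R B) ≤ cellSum Δ (g ω) R B})
    (hup : ∀ R B : Finset (ℤ × ℤ), R ⊆ grid Δ → B ⊆ grid Δ → R.card = B.card → R.card ≤ 2 →
      ∫⁻ ω, cellSum Δ (g ω) R B ∂μ ≤ ENNReal.ofReal (C * emd R B)) :
    p * Real.log Δ ≤ 26 * C := by
  apply core hΔ hp (g := fun Q r b => (∫⁻ ω, g ω Q r b ∂μ).toReal)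
    (fun Q r b => ENNReal.toReal_nonneg)
  intro R B hR hB hc h2
  have h1 := hup R B hR hB hc h2
  have h3 := hlow R B hR hB hc h2
  have hsum : ∫⁻ ω, cellSum Δ (g ω) R B ∂μ =
      ∑ Q ∈ cells Δ, ∫⁻ ω, g ω Q (R ∩ Q.1 ×ˢ Q.2).card (B ∩ Q.1 ×ˢ Q.2).card ∂μ := by
    unfold cellSum
    exact lintegral_finsetSum' _ fun Q hQ => hm Q hQ _ _
  have hfin : ∫⁻ ω, cellSum Δ (g ω) R B ∂μ ≠ ∞ :=
    ne_top_of_le_ne_top ENNReal.ofReal_ne_top h1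
  have hreal : cellSum Δ (fun Q r b => (∫⁻ ω, g ω Q r b ∂μ).toReal) R B =
      (∫⁻ ω, cellSum Δ (g ω) R B ∂μ).toReal := by
    rw [hsum, ENNReal.toReal_sum]
    · rfl
    · intro Q hQ
      rw [hsum] at hfin
      exact ne_top_of_le_ne_top hfin
        (single_le_sum (f := fun Q : Finset ℤ × Finset ℤ =>
          ∫⁻ ω, g ω Q (R ∩ Q.1 ×ˢ Q.2).card (B ∩ Q.1 ×ˢ Q.2).card ∂μ) (fun _ _ => zero_le) hQ)
  rw [hreal]
  constructor
  · rw [← ENNReal.ofReal_le_iff_le_toReal hfin]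
    have hmeas : AEMeasurable (fun ω => cellSum Δ (g ω) R B) μ := by
      unfold cellSum
      exact Finset.aemeasurable_fun_sum _ fun Q hQ => hm Q hQ _ _
    have h4 := mul_meas_ge_le_lintegral₀ hmeas (ENNReal.ofReal (emd R B))
    refine le_trans ?_ h4
    rw [ENNReal.ofReal_mul hp, mul_comm]
    gcongr
  · exact ENNReal.toReal_le_of_le_ofReal (mul_nonneg hC (emd_nonneg R B)) h1

end Pool.Agent.H51.EMD
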